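import Pool.Agent.Y666.SP.Stm

/-!
# PROJECT SP: from `HasSpine` to partitions
-/

set_option autoImplicit false

namespace Pool.Agent.Y666.SP

/-- A spine given by a retraction gives a chain and a partition into antichains meeting it. -/
theorem part_of_spine {P : Type} [PartialOrder P] (h : HasSpine (Set.univ : Set P)) :
    ∃ C : Set P, IsChain (· ≤ ·) C ∧ ∃ A : Set (Set P), Setoid.IsPartition A ∧
      ∀ a ∈ A, IsAntichain (· ≤ ·) a ∧ (C ∩ a).Nonempty := by
  obtain ⟨C, -, hC, f, hf, hfix, hanti⟩ := h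
  refine ⟨C, hC, {a | ∃ c ∈ C, a = {x | f x = c}}, ⟨?_, ?_⟩, ?_⟩
  · rintro ⟨c, hc, he⟩
    have : c ∈ {x | f x = c} := hfix c hc
    rw [← he] at this
    exact this
  · intro x
    refine ⟨{y | f y = f x}, ⟨⟨f x, hf x trivial, rfl⟩, rfl⟩, ?_⟩
    rintro a ⟨⟨c, hc, rfl⟩, hx⟩
    have hx' : f x = c := hx
    rw [hx']
  · rintro a ⟨c, hc, rfl⟩
    refine ⟨?_, c, hc, hfix c hc⟩
    intro x hx y hy hne hle
    have hx' : f x = c := hx
    have hy' : f y = c := hy
    exact hanti x trivial y trivial (hx'.trans hy'.symm) (lt_of_le_of_ne hle hne)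

end Pool.Agent.Y666.SP
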