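import Mathlib

/-!
# PROJECT SP (MP_6ec1b7_co): every countable poset of finite width has a spine

Exact statements of the blocks.  A *germ* is a filter (nonempty upper set, directed downwards)
without least element; `F ≤ G` means `G ⊆ F` (so `G` is higher), `gll F G` (written F << G) means that
some element of `F` is below every element of `G`.
-/

set_option autoImplicit false

namespace Pool.Agent.Y666.SP

/-! ## Part 1: abstract systems -/

section abs
variable {Φ : Type} [PartialOrder Φ]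

/-- `A` is a chain for the strict relation `ll`. -/
def Ch (ll : Φ → Φ → Prop) (A : Set Φ) : Prop :=
  ∀ a ∈ A, ∀ b ∈ A, a = b ∨ ll a b ∨ ll b a

/-- The axioms: `ll` is a strict relation below `<`, compatible with `≤`; the elements `g ≥ x`
which are not `ll`-above `x` are finitely many; `ll`-chains without `ll`-least element have a
greatest lower bound `m`, and whatever is `ll`-above `m` is `ll`-above an element of the chain. -/
structure Sys (ll : Φ → Φ → Prop) : Prop where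
  lt : ∀ a b, ll a b → a < b
  lel : ∀ a b c, a ≤ b → ll b c → ll a c
  lle : ∀ a b c, ll a b → b ≤ c → ll a c
  fin : ∀ x, {g | x ≤ g ∧ ¬ ll x g}.Finite
  glb : ∀ A : Set Φ, A.Nonempty → Ch ll A → (∀ a ∈ A, ∃ b ∈ A, ll b a) →
    ∃ m, (∀ a ∈ A, m ≤ a) ∧ (∀ x, (∀ a ∈ A, x ≤ a) → x ≤ m) ∧
      (∀ x, ll m x → ∃ a ∈ A, ll a x)

/-- The region between `L` and `U`. -/
def Reg (ll : Φ → Φ → Prop) (L U : Set Φ) : Set Φ :=
  {x | (∀ l ∈ L, ll l x) ∧ ∀ u ∈ U, ll x u}

/-- `A` is a good family in `Θ`: an `ll`-chain contained in `Θ` such that no `g ∈ A` can be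
replaced by a strictly larger `g' ∈ Θ` not `ll`-above `g` which is `ll`-below all the elements of
`A` that are `ll`-above `g`. -/
def Good (ll : Φ → Φ → Prop) (Θ A : Set Φ) : Prop :=
  A ⊆ Θ ∧ Ch ll A ∧ ∀ g ∈ A, ∀ g' ∈ Θ, g < g' → (∀ h ∈ A, ll g h → ll g' h) → ll g g'

/-- `Θ` is tame: it has a nonempty good family. -/
def Tame (ll : Φ → Φ → Prop) (Θ : Set Φ) : Prop := ∃ A : Set Φ, A.Nonempty ∧ Good ll Θ A

end abs

/-- UP: a region that is not tame stays nonempty and not tame above each of its elements. -/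
def S_UP : Prop := ∀ (Φ : Type) [PartialOrder Φ] (ll : Φ → Φ → Prop), Sys ll →
  ∀ L U : Set Φ, ¬ Tame ll (Reg ll L U) → ∀ g ∈ Reg ll L U,
    (Reg ll (insert g L) U).Nonempty ∧ ¬ Tame ll (Reg ll (insert g L) U)

/-- ZORN: if all nonempty subregions are tame, there is a good family which is a maximal chain. -/
def S_ZORN : Prop := ∀ (Φ : Type) [PartialOrder Φ] (ll : Φ → Φ → Prop), Sys ll →
  ∀ L U : Set Φ,
    (∀ L' U' : Set Φ, L ⊆ L' → U ⊆ U' → (Reg ll L' U').Nonempty → Tame ll (Reg ll L' U')) →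
    ∃ A : Set Φ, Good ll (Reg ll L U) A ∧ ∀ x ∈ Reg ll L U, ¬ ∀ g ∈ A, ll g x ∨ ll x g

/-- STEP: extending a maximal good family of the region `(x, y)` downwards by an element `y'`
near `x`. -/
def S_STEP : Prop := ∀ (Φ : Type) [PartialOrder Φ] (ll : Φ → Φ → Prop), Sys ll →
  ∀ (x y : Φ) (A : Set Φ), ll x y → Good ll (Reg ll {x} {y}) A →
    (∀ z ∈ Reg ll {x} {y}, ¬ ∀ g ∈ A, ll g z ∨ ll z g) →
    ∃ y', x ≤ y' ∧ ¬ ll x y' ∧ ll y' y ∧ (∀ a ∈ A, ll y' a) ∧
      Good ll (Reg ll ∅ {y}) (insert y' A)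

/-- IN: a region that is not tame contains an inner region that is not tame. -/
def S_IN : Prop := ∀ (Φ : Type) [PartialOrder Φ] (ll : Φ → Φ → Prop), Sys ll →
  ∀ L U : Set Φ, (Reg ll L U).Nonempty → ¬ Tame ll (Reg ll L U) →
    ∃ L' U' : Set Φ, (∃ a ∈ L', a ∈ Reg ll L U) ∧ (∃ b ∈ U', b ∈ Reg ll L U) ∧
      (Reg ll L' U').Nonempty ∧ ¬ Tame ll (Reg ll L' U')

/-- WPT: a region that is not tame contains a point which is the greatest lower bound of a
decreasing sequence, with regions around it that are not tame. -/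
def S_WPT : Prop := ∀ (Φ : Type) [PartialOrder Φ] (ll : Φ → Φ → Prop), Sys ll →
  ∀ L U : Set Φ, (Reg ll L U).Nonempty → ¬ Tame ll (Reg ll L U) →
    ∃ d ∈ Reg ll L U, ∃ (Ln Un : ℕ → Set Φ) (b : ℕ → Φ),
      (∀ n, Reg ll (Ln n) (Un n) ⊆ Reg ll L U) ∧
      (∀ n, ¬ Tame ll (Reg ll (Ln n) (Un n))) ∧
      (∀ n, d ∈ Reg ll (Ln n) (Un n)) ∧
      (∀ n, b n ∈ Un n) ∧ (∀ n, b (n + 1) ∈ Reg ll (Ln n) (Un n)) ∧
      (∀ x, (∀ n, x ≤ b n) → x ≤ d)

/-- TREE: every nonempty region is tame. -/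
def S_TREE : Prop := ∀ (Φ : Type) [PartialOrder Φ] (ll : Φ → Φ → Prop), Sys ll →
  ∀ L U : Set Φ, (Reg ll L U).Nonempty → Tame ll (Reg ll L U)

/-- The selection theorem (from TREE and ZORN). -/
def S_SEL : Prop := ∀ (Φ : Type) [PartialOrder Φ] (ll : Φ → Φ → Prop), Sys ll →
  ∃ G : Set Φ, Ch ll G ∧ (∀ x, ¬ ∀ g ∈ G, ll g x ∨ ll x g) ∧
    ∀ g ∈ G, ∀ g' : Φ, g < g' → (∀ h ∈ G, ll g h → ll g' h) → ll g g'

/-! ## Part 2: germs of posets -/

/-- A germ: a nonempty upper set in which any two elements have a strict lower bound. -/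
structure Germ (α : Type) [PartialOrder α] where
  carrier : Set α
  nonempty : carrier.Nonempty
  up : ∀ x ∈ carrier, ∀ y, x ≤ y → y ∈ carrier
  dir : ∀ x ∈ carrier, ∀ y ∈ carrier, ∃ z ∈ carrier, z < x ∧ z < y

theorem Germ.ext' {α : Type} [PartialOrder α] {F G : Germ α} (h : F.carrier = G.carrier) :
    F = G := by
  cases F; cases G; cases h; rfl

instance {α : Type} [PartialOrder α] : PartialOrder (Germ α) where
  le F G := G.carrier ⊆ F.carrier
  le_refl F := subset_rfl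
  le_trans F G H h1 h2 := Set.Subset.trans h2 h1
  le_antisymm F G h1 h2 := Germ.ext' (Set.Subset.antisymm h2 h1)

theorem Germ.le_def {α : Type} [PartialOrder α] {F G : Germ α} :
    F ≤ G ↔ G.carrier ⊆ F.carrier := Iff.rfl

/-- `F << G`: some element of `F` is below every element of `G`. -/
def gll {α : Type} [PartialOrder α] (F G : Germ α) : Prop :=
  ∃ p ∈ F.carrier, ∀ q ∈ G.carrier, p < q

/-- The width of `α` is at most `w`. -/
def Wd (α : Type) [PartialOrder α] (w : ℕ) : Prop :=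
  ∀ s : Finset α, IsAntichain (· ≤ ·) (s : Set α) → s.card ≤ w

/-- FINN -/
def S_FINN : Prop := ∀ (α : Type) [PartialOrder α] (w : ℕ), Wd α w →
  ∀ x : Germ α, {g | x ≤ g ∧ ¬ gll x g}.Finite

/-- GLB: greatest lower bounds are unions. -/
def S_GLB : Prop := ∀ (α : Type) [PartialOrder α] (A : Set (Germ α)), A.Nonempty → Ch gll A →
    (∀ a ∈ A, ∃ b ∈ A, gll b a) →
    ∃ m : Germ α, (∀ z, z ∈ m.carrier ↔ ∃ a ∈ A, z ∈ a.carrier) ∧
      (∀ a ∈ A, m ≤ a) ∧ (∀ x, (∀ a ∈ A, x ≤ a) → x ≤ m) ∧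
      (∀ x, gll m x → ∃ a ∈ A, gll a x)

/-- SYS: the germs of a poset of finite width form a system. -/
def S_SYS : Prop := ∀ (α : Type) [PartialOrder α] (w : ℕ), Wd α w →
  Sys (gll : Germ α → Germ α → Prop)

/-- RAM: injective sequences have strictly monotone subsequences. -/
def S_RAM : Prop := ∀ (α : Type) [PartialOrder α] (w : ℕ), Wd α w →
  ∀ s : ℕ → α, Function.Injective s →
    ∃ g : ℕ → ℕ, StrictMono g ∧ (StrictMono (s ∘ g) ∨ StrictAnti (s ∘ g))

section conc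
variable {α : Type} [PartialOrder α]

/-- The conclusion of the selection theorem for the germs of `α`. -/
structure Sel (G : Set (Germ α)) : Prop where
  ch : Ch gll G
  mx : ∀ x, ¬ ∀ g ∈ G, gll g x ∨ gll x g
  sw : ∀ g ∈ G, ∀ g' : Germ α, g < g' → (∀ h ∈ G, gll g h → gll g' h) → gll g g'

/-- The elements comparable to all the germs of `G`. -/
def BB (G : Set (Germ α)) : Set α := {x | ∀ g ∈ G, x ∈ g.carrier ∨ ∀ q ∈ g.carrier, x < q}

/-- Being in the same piece. -/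
def Same (G : Set (Germ α)) (x y : α) : Prop := ∀ g ∈ G, (x ∈ g.carrier ↔ y ∈ g.carrier)

/-- Property (*): strictly decreasing sequences in `S` are coinitial in `S`. -/
def Star (S : Set α) : Prop :=
  ∀ s : ℕ → α, StrictAnti s → (∀ n, s n ∈ S) → ∀ x ∈ S, ∃ n, s n ≤ x

/-- `S` has a spine: a chain `C ⊆ S` and a retraction `f` of `S` onto `C` with antichain
fibres. -/
def HasSpine (S : Set α) : Prop :=
  ∃ C : Set α, C ⊆ S ∧ IsChain (· ≤ ·) C ∧ ∃ f : α → α,
    (∀ x ∈ S, f x ∈ C) ∧ (∀ c ∈ C, f c = c) ∧ ∀ x ∈ S, ∀ y ∈ S, f x = f y → ¬ x < y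

/-- Spines of all the pieces. -/
structure Base (G : Set (Germ α)) (C : Set α) (f : α → α) : Prop where
  sub : C ⊆ BB G
  chain : IsChain (· ≤ ·) C
  map : ∀ x ∈ BB G, f x ∈ C
  same : ∀ x ∈ BB G, Same G (f x) x
  fix : ∀ c ∈ C, f c = c
  anti : ∀ x ∈ BB G, ∀ y ∈ BB G, f x = f y → ¬ x < y

end conc

/-- STAR -/
def S_STAR : Prop := ∀ (α : Type) [PartialOrder α] (G : Set (Germ α)), Sel G →
  ∀ s : ℕ → α, StrictAnti s → (∀ n, s n ∈ BB G) → ∀ x ∈ BB G, (∀ n, Same G (s n) x) →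
    ∃ n, s n ≤ x

/-- MP -/
def S_MP : Prop := ∀ (α : Type) [PartialOrder α] (G : Set (Germ α)), Sel G →
  ∀ g ∈ G, ∀ s : ℕ → α, StrictAnti s → (∀ n, s n ∈ BB G) → (∀ n, s n ∈ g.carrier) →
    (∀ z ∈ g.carrier, ∃ n, s n ≤ z) ∨ ∃ p ∈ g.carrier, ∀ n, p < s n

/-- LIM -/
def S_LIM : Prop := ∀ (α : Type) [PartialOrder α] (G : Set (Germ α)), Sel G →
  ∀ g ∈ G, (∃ x ∈ BB G, x ∈ g.carrier ∧ ∀ h ∈ G, gll g h → x ∉ h.carrier) ∨
    (∀ z ∈ g.carrier, ∃ h ∈ G, gll g h ∧ z ∈ h.carrier)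

/-- BET: between two germs of `G` there is an element of `BB G`. -/
def S_BET : Prop := ∀ (α : Type) [PartialOrder α] (w : ℕ), Wd α w →
  ∀ G : Set (Germ α), Sel G →
  ∀ g ∈ G, ∀ h ∈ G, gll g h → ∃ b ∈ BB G, b ∈ g.carrier ∧ ∀ q ∈ h.carrier, b < q

/-- COI: the union of the spines of the pieces is coinitial in each germ of `G`. -/
def S_COI : Prop := ∀ (α : Type) [PartialOrder α] (w : ℕ), Wd α w →
  ∀ (G : Set (Germ α)) (C : Set α) (f : α → α), Sel G → Base G C f →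
  ∀ g ∈ G, ∀ z ∈ g.carrier, ∃ c ∈ C, c ∈ g.carrier ∧ c ≤ z

/-- FREE: an element outside `BB G` is incomparable to infinitely many fibres. -/
def S_FREE : Prop := ∀ (α : Type) [PartialOrder α] [Countable α] (w : ℕ), Wd α w →
  ∀ (G : Set (Germ α)) (C : Set α) (f : α → α), Sel G → Base G C f →
  ∀ x, x ∉ BB G → {c | c ∈ C ∧ ∀ z ∈ BB G, f z = c → ¬ x ≤ z ∧ ¬ z ≤ x}.Infinite

/-- BASE: spines of the pieces give `Base`. -/
def S_BASE : Prop := ∀ (α : Type) [PartialOrder α] (G : Set (Germ α)), Sel G →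
  (∀ S : Set α, Star S → HasSpine S) → ∃ (C : Set α) (f : α → α), Base G C f

/-- RED: the reduction. -/
def S_RED : Prop := ∀ (α : Type) [PartialOrder α] [Countable α] (w : ℕ), Wd α w →
  (∀ S : Set α, Star S → HasSpine S) → HasSpine (Set.univ : Set α)

/-- ZAG: the locally finite case, by compactness. -/
def S_ZAG : Prop := ∀ (α : Type) [PartialOrder α],
  (∀ x : α, {y | ¬ x ≤ y ∧ ¬ y ≤ x}.Finite) → HasSpine (Set.univ : Set α)

/-- MAIN -/
def S_MAIN : Prop := ∀ (α : Type) [PartialOrder α] [Countable α] (w : ℕ), Wd α w →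
  HasSpine (Set.univ : Set α)

end Pool.Agent.Y666.SP
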