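import Pool.Agent.Y666.SP.Stm

/-!
# PROJECT SP, part 2: posets of finite width of arbitrary cardinality

Everything is relative to a subset `E` of a poset `α` and an infinite cardinal `κ`.
-/

set_option autoImplicit false

open Cardinal OrderDual

namespace Pool.Agent.Y666.SP

/-- The cardinality of a set. -/
def cd {α : Type} (S : Set α) : Cardinal.{0} := Cardinal.mk S

/-- The subset `E` of `α` as a subset of the dual order. -/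
def dS {α : Type} (E : Set α) : Set αᵒᵈ := ofDual ⁻¹' E

section kap
variable {α : Type} [PartialOrder α]

/-- The elements of `E` incomparable to `x`. -/
def Inc (E : Set α) (x : α) : Set α := {y | y ∈ E ∧ ¬ x ≤ y ∧ ¬ y ≤ x}

/-- The part of `E` between `x` and `y`. -/
def Bt (E : Set α) (x y : α) : Set α := {z | z ∈ E ∧ x ≤ z ∧ z ≤ y}

/-- A `κ`-germ of `E`: a nonempty relative upper set of `E`, directed downwards, with at least `κ`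
elements below each of its elements. -/
structure KGerm (κ : Cardinal.{0}) (E : Set α) where
  carrier : Set α
  sub : carrier ⊆ E
  nonempty : carrier.Nonempty
  up : ∀ x ∈ carrier, ∀ y ∈ E, x ≤ y → y ∈ carrier
  dir : ∀ x ∈ carrier, ∀ y ∈ carrier, ∃ z ∈ carrier, z ≤ x ∧ z ≤ y
  large : ∀ x ∈ carrier, κ ≤ cd {y | y ∈ carrier ∧ y ≤ x}

variable {κ : Cardinal.{0}} {E : Set α}

theorem KGerm.ext' {F G : KGerm κ E} (h : F.carrier = G.carrier) : F = G := by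
  cases F; cases G; cases h; rfl

instance : PartialOrder (KGerm κ E) where
  le F G := G.carrier ⊆ F.carrier
  le_refl F := subset_rfl
  le_trans F G H h1 h2 := Set.Subset.trans h2 h1
  le_antisymm F G h1 h2 := KGerm.ext' (Set.Subset.antisymm h2 h1)

theorem KGerm.le_def {F G : KGerm κ E} : F ≤ G ↔ G.carrier ⊆ F.carrier := Iff.rfl

/-- `F << G`: some element of `F` is below every element of `G`. -/
def kll (F G : KGerm κ E) : Prop := ∃ p ∈ F.carrier, ∀ q ∈ G.carrier, p < q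

/-- The conclusion of the selection theorem for the `κ`-germs of `E`. -/
structure KSel (G : Set (KGerm κ E)) : Prop where
  ch : Ch kll G
  mx : ∀ x, ¬ ∀ g ∈ G, kll g x ∨ kll x g
  sw : ∀ g ∈ G, ∀ g' : KGerm κ E, g < g' → (∀ h ∈ G, kll g h → kll g' h) → kll g g'

/-- The elements of `E` comparable to all the germs of `G`. -/
def KBB (G : Set (KGerm κ E)) : Set α :=
  {x | x ∈ E ∧ ∀ g ∈ G, x ∈ g.carrier ∨ ∀ q ∈ g.carrier, x < q}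

/-- Being in the same piece. -/
def KSame (G : Set (KGerm κ E)) (x y : α) : Prop := ∀ g ∈ G, (x ∈ g.carrier ↔ y ∈ g.carrier)

/-- The piece of `x`. -/
def KPc (G : Set (KGerm κ E)) (x : α) : Set α := {y | y ∈ KBB G ∧ KSame G y x}

/-- `D` is a nonempty chain with at least `κ` elements below each of its elements. -/
def KLarge (κ : Cardinal.{0}) (D : Set α) : Prop :=
  D.Nonempty ∧ IsChain (· ≤ ·) D ∧ ∀ d ∈ D, κ ≤ cd {y | y ∈ D ∧ y ≤ d}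

/-- `D` is a nonempty chain with at least `κ` elements above each of its elements. -/
def KLargeU (κ : Cardinal.{0}) (D : Set α) : Prop :=
  D.Nonempty ∧ IsChain (· ≤ ·) D ∧ ∀ d ∈ D, κ ≤ cd {y | y ∈ D ∧ d ≤ y}

/-- (*) for `κ`. -/
def KStar (κ : Cardinal.{0}) (S : Set α) : Prop :=
  ∀ D ⊆ S, KLarge κ D → ∀ x ∈ S, ∃ d ∈ D, d ≤ x

/-- The dual of (*) for `κ`. -/
def KStarU (κ : Cardinal.{0}) (S : Set α) : Prop :=
  ∀ D ⊆ S, KLargeU κ D → ∀ x ∈ S, ∃ d ∈ D, x ≤ d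

/-- A spine of `S`, with its retraction. -/
structure Spine (S C : Set α) (f : α → α) : Prop where
  sub : C ⊆ S
  chain : IsChain (· ≤ ·) C
  map : ∀ x ∈ S, f x ∈ C
  fix : ∀ c ∈ C, f c = c
  anti : ∀ x ∈ S, ∀ y ∈ S, f x = f y → ¬ x < y

/-- Every spine of `S` extends to a spine of `E`. -/
def Ext (S E : Set α) : Prop :=
  ∀ (C : Set α) (f : α → α), Spine S C f →
    ∃ (C' : Set α) (f' : α → α), Spine E C' f' ∧ C' ∩ S = C ∧ ∀ x ∈ S, f' x = f x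

/-- Spines of all the pieces. -/
structure KBase (G : Set (KGerm κ E)) (C : Set α) (f : α → α) : Prop where
  sub : C ⊆ KBB G
  chain : IsChain (· ≤ ·) C
  map : ∀ x ∈ KBB G, f x ∈ C
  same : ∀ x ∈ KBB G, KSame G (f x) x
  fix : ∀ c ∈ C, f c = c
  anti : ∀ x ∈ KBB G, ∀ y ∈ KBB G, f x = f y → ¬ x < y

/-- The elements of `E` close to `x₀` in the sense of `κ` are in `S`. -/
def C3 (κ : Cardinal.{0}) (x₀ : α) (E S : Set α) : Prop :=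
  ∀ x ∈ E, cd (Inc E x) < κ → cd (Bt E x x₀) < κ → cd (Bt E x₀ x) < κ → x ∈ S

/-- Order-convexity of `S` in `E`. -/
def Cvx (E S : Set α) : Prop := ∀ a ∈ S, ∀ b ∈ S, ∀ y ∈ E, a ≤ y → y ≤ b → y ∈ S

/-- `S` is the piece of `x₀` for a selection of `κ`-germs of `E`. -/
def FPiece (κ : Cardinal.{0}) (x₀ : α) (E S : Set α) : Prop :=
  ∃ G : Set (KGerm κ E), KSel G ∧ x₀ ∈ KBB G ∧ S = KPc G x₀

end kap

/-- The data of a two-stage piece: `G` a selection of (filter) germs of `E`, `S₁` the piece of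
`x₀`, `G'` a selection of germs of the dual of `S₁` (ideal germs of `S₁`), `S` the piece of `x₀`. -/
structure StpData {α : Type} [PartialOrder α] (κ : Cardinal.{0}) (x₀ : α) (E S₁ S : Set α)
    (G : Set (KGerm κ E)) (G' : Set (KGerm κ (dS S₁))) : Prop where
  selG : KSel G
  memG : x₀ ∈ KBB G
  eq₁ : S₁ = KPc G x₀
  selG' : KSel G'
  memG' : toDual x₀ ∈ KBB G'
  eq₂ : dS S = KPc G' (toDual x₀)

/-- `S` is the piece of `x₀` after the two stages. -/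
def Stp {α : Type} [PartialOrder α] (κ : Cardinal.{0}) (x₀ : α) (E S : Set α) : Prop :=
  ∃ (S₁ : Set α) (G : Set (KGerm κ E)) (G' : Set (KGerm κ (dS S₁))), StpData κ x₀ E S₁ S G G'

/-! ## Statements, general part -/

/-- KAC: sets of pairwise not `kll`-related germs have at most `w` elements. -/
def S_KAC : Prop := ∀ (α : Type) [PartialOrder α] (w : ℕ), Wd α w →
  ∀ (κ : Cardinal.{0}) (E : Set α) (s : Finset (KGerm κ E)),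
    (∀ a ∈ s, ∀ b ∈ s, ¬ kll a b) → s.card ≤ w

/-- KGLB -/
def S_KGLB : Prop := ∀ (α : Type) [PartialOrder α] (κ : Cardinal.{0}) (E : Set α)
    (A : Set (KGerm κ E)), A.Nonempty → Ch kll A → (∀ a ∈ A, ∃ b ∈ A, kll b a) →
    ∃ m : KGerm κ E, (∀ z, z ∈ m.carrier ↔ ∃ a ∈ A, z ∈ a.carrier) ∧
      (∀ a ∈ A, m ≤ a) ∧ (∀ x, (∀ a ∈ A, x ≤ a) → x ≤ m) ∧
      (∀ x, kll m x → ∃ a ∈ A, kll a x)

/-- KSYS -/
def S_KSYS : Prop := ∀ (α : Type) [PartialOrder α] (w : ℕ), Wd α w →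
  ∀ (κ : Cardinal.{0}) (E : Set α), Sys (kll : KGerm κ E → KGerm κ E → Prop)

/-- KSTAR -/
def S_KSTAR : Prop := ∀ (α : Type) [PartialOrder α] (κ : Cardinal.{0}) (E : Set α)
  (G : Set (KGerm κ E)), KSel G → ∀ D ⊆ KBB G, KLarge κ D → ∀ x ∈ KBB G,
    (∀ d ∈ D, KSame G d x) → ∃ d ∈ D, d ≤ x

/-- KMP -/
def S_KMP : Prop := ∀ (α : Type) [PartialOrder α] (κ : Cardinal.{0}) (E : Set α)
  (G : Set (KGerm κ E)), KSel G → ∀ g ∈ G, ∀ D ⊆ KBB G, KLarge κ D → D ⊆ g.carrier →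
    (∀ z ∈ g.carrier, ∃ d ∈ D, d ≤ z) ∨ ∃ p ∈ g.carrier, ∀ d ∈ D, p < d

/-- KLIM -/
def S_KLIM : Prop := ∀ (α : Type) [PartialOrder α] (κ : Cardinal.{0}) (E : Set α)
  (G : Set (KGerm κ E)), KSel G → ∀ g ∈ G,
    (∃ x ∈ KBB G, x ∈ g.carrier ∧ ∀ h ∈ G, kll g h → x ∉ h.carrier) ∨
    (∀ z ∈ g.carrier, ∃ h ∈ G, kll g h ∧ z ∈ h.carrier)

/-- KLEAST: among the germs of `G` above `x₀` there is a least one. -/
def S_KLEAST : Prop := ∀ (α : Type) [PartialOrder α] (κ : Cardinal.{0}) (E : Set α)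
  (G : Set (KGerm κ E)), KSel G → ∀ x₀ ∈ KBB G, (∃ u ∈ G, x₀ ∉ u.carrier) →
    ∃ u ∈ G, x₀ ∉ u.carrier ∧ ∀ h ∈ G, x₀ ∉ h.carrier → h = u ∨ kll u h

/-- KBET -/
def S_KBET : Prop := ∀ (α : Type) [PartialOrder α] (w : ℕ), Wd α w →
  ∀ (κ : Cardinal.{0}), ℵ₀ ≤ κ → ∀ (E : Set α) (G : Set (KGerm κ E)), KSel G →
  ∀ g ∈ G, ∀ h ∈ G, kll g h → κ ≤ cd {b | b ∈ KBB G ∧ b ∈ g.carrier ∧ ∀ q ∈ h.carrier, b < q}

/-- KCOI -/
def S_KCOI : Prop := ∀ (α : Type) [PartialOrder α] (w : ℕ), Wd α w →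
  ∀ (κ : Cardinal.{0}), ℵ₀ ≤ κ → ∀ (E : Set α) (G : Set (KGerm κ E)), KSel G →
  ∀ (C : Set α) (f : α → α), KBase G C f →
  ∀ g ∈ G, ∀ z ∈ g.carrier, κ ≤ cd {c | c ∈ C ∧ c ∈ g.carrier ∧ c ≤ z}

/-- KFREE -/
def S_KFREE : Prop := ∀ (α : Type) [PartialOrder α] (w : ℕ), Wd α w →
  ∀ (κ : Cardinal.{0}), ℵ₀ ≤ κ → ∀ (E : Set α) (G : Set (KGerm κ E)), KSel G →
  ∀ (C : Set α) (f : α → α), KBase G C f →
  ∀ x ∈ E, x ∉ KBB G → κ ≤ cd {c | c ∈ C ∧ ∀ z ∈ KBB G, f z = c → ¬ x ≤ z ∧ ¬ z ≤ x}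

/-- GREEDY -/
def S_GREEDY : Prop := ∀ (ι α : Type) (κ : Cardinal.{0}) (T : ι → Set α), ℵ₀ ≤ κ →
  (∀ i, κ ≤ cd (T i)) → (∀ a, cd {i | a ∈ T i} ≤ κ) →
  ∃ φ : ι → α, Function.Injective φ ∧ ∀ i, φ i ∈ T i

/-- KRED -/
def S_KRED : Prop := ∀ (α : Type) [PartialOrder α] (w : ℕ), Wd α w →
  ∀ (κ : Cardinal.{0}), ℵ₀ ≤ κ → ∀ (E : Set α), (∀ x ∈ E, cd (Inc E x) ≤ κ) →
  ∀ (G : Set (KGerm κ E)), KSel G → ∀ (C : Set α) (f : α → α), KBase G C f →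
  ∃ f' : α → α, Spine E C f' ∧ ∀ x ∈ KBB G, f' x = f x

/-- KPC -/
def S_KPC : Prop := ∀ (α : Type) [PartialOrder α] (w : ℕ), Wd α w →
  ∀ (κ : Cardinal.{0}), ℵ₀ ≤ κ → ∀ (E : Set α), (∀ x ∈ E, cd (Inc E x) ≤ κ) →
  ∀ (G : Set (KGerm κ E)), KSel G → (∀ S ⊆ E, KStar κ S → HasSpine S) →
  (∀ x₀ ∈ KBB G, Ext (KPc G x₀) E) ∧ HasSpine E

/-- RED2: the two-stage reduction. -/
def S_RED2 : Prop := ∀ (α : Type) [PartialOrder α] (w : ℕ), Wd α w →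
  ∀ (κ : Cardinal.{0}), ℵ₀ ≤ κ → ∀ (E : Set α), (∀ x ∈ E, cd (Inc E x) ≤ κ) →
  (∀ S ⊆ E, KStar κ S → KStarU κ S → HasSpine S) → HasSpine E

/-- DW: Dilworth's theorem for arbitrary posets of width at most `w`. -/
def S_DW : Prop := ∀ (α : Type) [PartialOrder α] (w : ℕ), Wd α w →
  ∃ col : α → Fin w, ∀ x y, col x = col y → x ≤ y ∨ y ≤ x

/-- CHL: chains of size at least `κ` contain large subsets. -/
def S_CHL : Prop := ∀ (α : Type) [PartialOrder α] (κ : Cardinal.{0}), ℵ₀ ≤ κ →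
  ∀ K : Set α, IsChain (· ≤ ·) K → κ ≤ cd K → ∃ D ⊆ K, KLarge κ D ∨ KLargeU κ D

/-- KINC -/
def S_KINC : Prop := ∀ (α : Type) [PartialOrder α] (w : ℕ), Wd α w →
  ∀ (κ : Cardinal.{0}), ℵ₀ ≤ κ → ∀ (S : Set α), KStar κ S → KStarU κ S →
  (∀ x ∈ S, cd (Inc S x) < κ) ∧ ∀ x ∈ S, ∀ y ∈ S, cd (Bt S x y) < κ

/-- The statement to be proved by induction on `κ`. -/
def QQ (κ : Cardinal.{0}) : Prop := ∀ (α : Type) [PartialOrder α] (w : ℕ), Wd α w →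
  ∀ E : Set α, (∀ x ∈ E, cd (Inc E x) < κ) → HasSpine E

/-- Q0 -/
def S_Q0 : Prop := QQ ℵ₀

/-- QS -/
def S_QS : Prop := ∀ κ : Cardinal.{0}, ℵ₀ ≤ κ → QQ κ → QQ (Order.succ κ)

/-! ## Statements, limit cardinals -/

/-- STPEX -/
def S_STPEX : Prop := ∀ (α : Type) [PartialOrder α] (w : ℕ), Wd α w →
  ∀ (κ : Cardinal.{0}), ℵ₀ ≤ κ → ∀ (E : Set α), ∀ x₀ ∈ E, cd (Inc E x₀) < κ →
  ∃ S, Stp κ x₀ E S

/-- FPROP -/
def S_FPROP : Prop := ∀ (α : Type) [PartialOrder α] (w : ℕ), Wd α w →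
  ∀ (κ : Cardinal.{0}), ℵ₀ ≤ κ → ∀ (x₀ : α) (E S : Set α), FPiece κ x₀ E S →
  S ⊆ E ∧ x₀ ∈ S ∧ Cvx E S ∧ KStar κ S ∧ C3 κ x₀ E S

/-- STPPROP -/
def S_STPPROP : Prop := ∀ (α : Type) [PartialOrder α] (w : ℕ), Wd α w →
  ∀ (κ : Cardinal.{0}), ℵ₀ ≤ κ → ∀ (x₀ : α) (E S : Set α), Stp κ x₀ E S →
  S ⊆ E ∧ x₀ ∈ S ∧ Cvx E S ∧ KStar κ S ∧ KStarU κ S ∧ C3 κ x₀ E S

/-- STPEXT -/
def S_STPEXT : Prop := ∀ (α : Type) [PartialOrder α] (w : ℕ), Wd α w →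
  ∀ (κ : Cardinal.{0}), ℵ₀ ≤ κ → ∀ (x₀ : α) (E S : Set α), Stp κ x₀ E S →
  (∀ x ∈ E, cd (Inc E x) ≤ κ) → QQ (Order.succ κ) → Ext S E

section cuts
variable {α : Type} [PartialOrder α]

/-- A filter germ containing `x₀` with no germ containing `x₀` above it. -/
def LowF (κ : Cardinal.{0}) (T : Set α) (x₀ : α) (F : KGerm κ T) : Prop :=
  x₀ ∈ F.carrier ∧ ∀ F' : KGerm κ T, x₀ ∈ F'.carrier → ¬ kll F F'

/-- An ideal germ below `x₀` with no ideal germ below `x₀` above it. -/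
def LowI (κ : Cardinal.{0}) (T : Set α) (x₀ : α) (J : KGerm κ (dS T)) : Prop :=
  (∀ j ∈ J.carrier, ofDual j < x₀) ∧
    ∀ J' : KGerm κ (dS T), (∀ j ∈ J'.carrier, ofDual j < x₀) → ¬ kll J' J

/-- The possible lower cuts. -/
def LCut (κ : Cardinal.{0}) (T : Set α) (x₀ : α) (U : Set α) : Prop :=
  U = T ∨ (∃ F, LowF κ T x₀ F ∧ U = F.carrier) ∨
    ∃ J, LowI κ T x₀ J ∧ U = {y | y ∈ T ∧ ∀ j ∈ J.carrier, ofDual j < y}

end cuts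

section cuts2
variable {α : Type} [PartialOrder α]

/-- The possible upper cuts. -/
def UCut (κ : Cardinal.{0}) (T : Set α) (x₀ : α) (D : Set α) : Prop :=
  LCut κ (dS T) (toDual x₀) (dS D)

/-- The admissible sets. -/
def Adm (κ : Cardinal.{0}) (T : Set α) (x₀ : α) (S : Set α) : Prop :=
  ∃ U D : Set α, LCut κ T x₀ U ∧ UCut κ T x₀ D ∧ S = U ∩ D

/-- The lower cut of a two-stage piece. -/
def LwSet {κ : Cardinal.{0}} {E S₁ : Set α} (x₀ : α) (UE : Set α) (G : Set (KGerm κ E))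
    (G' : Set (KGerm κ (dS S₁))) : Set α :=
  {y | y ∈ UE ∧ (∀ g ∈ G, x₀ ∈ g.carrier → ∃ q ∈ g.carrier, q ≤ y) ∧
    ∀ J ∈ G', toDual x₀ ∉ J.carrier → ∀ j ∈ J.carrier, ofDual j < y}

/-- The upper cut of a two-stage piece. -/
def UpSet {κ : Cardinal.{0}} {E S₁ : Set α} (x₀ : α) (DE : Set α) (G : Set (KGerm κ E))
    (G' : Set (KGerm κ (dS S₁))) : Set α :=
  {y | y ∈ DE ∧ (∀ g ∈ G, x₀ ∉ g.carrier → ∀ q ∈ g.carrier, y < q) ∧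
    ∀ J ∈ G', toDual x₀ ∈ J.carrier → ∃ j ∈ J.carrier, y ≤ ofDual j}

end cuts2

/-- ADMFIN -/
def S_ADMFIN : Prop := ∀ (α : Type) [PartialOrder α] (w : ℕ), Wd α w →
  ∀ (κ : Cardinal.{0}) (T : Set α) (x₀ : α), {S | Adm κ T x₀ S}.Finite

/-- LOW: the lower cut. -/
def S_LOW : Prop := ∀ (α : Type) [PartialOrder α] (w : ℕ), Wd α w →
  ∀ (κ κ' : Cardinal.{0}), ℵ₀ ≤ κ → κ ≤ κ' → ∀ (T UE DE E : Set α) (x₀ : α), x₀ ∈ E →
  E = UE ∩ DE → UE ⊆ T → DE ⊆ T → (∀ x ∈ UE, ∀ y ∈ T, x ≤ y → y ∈ UE) →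
  (∀ x ∈ DE, ∀ y ∈ T, y ≤ x → y ∈ DE) → LCut κ' T x₀ UE →
  ∀ (S₁ S : Set α) (G : Set (KGerm κ E)) (G' : Set (KGerm κ (dS S₁))),
    StpData κ x₀ E S₁ S G G' → LCut κ T x₀ (LwSet x₀ UE G G')

/-- UPP: the upper cut. -/
def S_UPP : Prop := ∀ (α : Type) [PartialOrder α] (w : ℕ), Wd α w →
  ∀ (κ κ' : Cardinal.{0}), ℵ₀ ≤ κ → κ ≤ κ' → ∀ (T UE DE E : Set α) (x₀ : α), x₀ ∈ E →
  E = UE ∩ DE → UE ⊆ T → DE ⊆ T → (∀ x ∈ UE, ∀ y ∈ T, x ≤ y → y ∈ UE) →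
  (∀ x ∈ DE, ∀ y ∈ T, y ≤ x → y ∈ DE) → UCut κ' T x₀ DE →
  ∀ (S₁ S : Set α) (G : Set (KGerm κ E)) (G' : Set (KGerm κ (dS S₁))),
    StpData κ x₀ E S₁ S G G' → UCut κ T x₀ (UpSet x₀ DE G G')

/-- CEQ: the piece is the intersection of its cuts. -/
def S_CEQ : Prop := ∀ (α : Type) [PartialOrder α] (κ : Cardinal.{0}) (UE DE E : Set α) (x₀ : α),
  E = UE ∩ DE → ∀ (S₁ S : Set α) (G : Set (KGerm κ E)) (G' : Set (KGerm κ (dS S₁))),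
    StpData κ x₀ E S₁ S G G' → S = LwSet x₀ UE G G' ∩ UpSet x₀ DE G G'

/-- ADMSTEP -/
def S_ADMSTEP : Prop := ∀ (α : Type) [PartialOrder α] (w : ℕ), Wd α w →
  ∀ (κ κ' : Cardinal.{0}), ℵ₀ ≤ κ → κ ≤ κ' → ∀ (T E S : Set α) (x₀ : α), x₀ ∈ E →
  Adm κ' T x₀ E → Stp κ x₀ E S → Adm κ T x₀ S

/-- RADO: compactness. -/
def S_RADO : Prop := ∀ (ι : Type 1) (β : Type) (O : ι → Set β), (∀ i, (O i).Finite) →
  ∀ R : ι → ι → β → β → Prop,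
  (∀ s : Finset ι, ∃ σ : ι → β, (∀ i ∈ s, σ i ∈ O i) ∧ ∀ i ∈ s, ∀ j ∈ s, R i j (σ i) (σ j)) →
  ∃ σ : ι → β, (∀ i, σ i ∈ O i) ∧ ∀ i j, R i j (σ i) (σ j)

/-- A tower. -/
structure Tower {α : Type} [PartialOrder α] (θ κ₀ : Cardinal.{0}) (x₀ : α) (T : Set α)
    (σ : Cardinal.{0} → Set α) : Prop where
  mem : ∀ κ, κ₀ ≤ κ → κ < θ → x₀ ∈ σ κ
  sub : ∀ κ, κ₀ ≤ κ → κ < θ → σ κ ⊆ T
  star : ∀ κ, κ₀ ≤ κ → κ < θ → KStar κ (σ κ) ∧ KStarU κ (σ κ)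
  top : ∀ κ, κ₀ ≤ κ → κ < θ → C3 κ x₀ T (σ κ)
  mono : ∀ κ μ, κ₀ ≤ κ → κ < μ → μ < θ → σ κ ⊆ σ μ ∧ C3 κ x₀ (σ μ) (σ κ)
  step : ∀ κ, κ₀ ≤ κ → Order.succ κ < θ → Stp κ x₀ (σ (Order.succ κ)) (σ κ)

/-- TOWER -/
def S_TOWER : Prop := ∀ (α : Type) [PartialOrder α] (w : ℕ), Wd α w →
  ∀ (θ κ₀ : Cardinal.{0}), ℵ₀ ≤ κ₀ → ∀ (T : Set α), ∀ x₀ ∈ T, cd (Inc T x₀) < κ₀ →
  ∃ σ : Cardinal.{0} → Set α, Tower θ κ₀ x₀ T σ

/-- GZ: gluing spines along a well-ordered increasing family of sets. -/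
def S_GZ : Prop := ∀ (ι : Type 1) [LinearOrder ι] [WellFoundedLT ι] (α : Type) [PartialOrder α]
  (S : ι → Set α), (∀ i j, i ≤ j → S i ⊆ S j) →
  (∀ i, (∀ j, ¬ j < i) → HasSpine (S i)) →
  (∀ j i, j < i → (∀ k, k < i → k ≤ j) → Ext (S j) (S i)) →
  (∀ i, (∃ j, j < i) → (∀ j, j < i → ∃ k, k < i ∧ j < k) → ∀ x ∈ S i, ∃ j, j < i ∧ x ∈ S j) →
  ∀ i, HasSpine (S i)

/-- GLUE -/
def S_GLUE : Prop := ∀ (α : Type) [PartialOrder α] (w : ℕ), Wd α w →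
  ∀ (θ κ₀ : Cardinal.{0}), ℵ₀ ≤ κ₀ → κ₀ < θ → Order.IsSuccLimit θ → (∀ κ, ℵ₀ ≤ κ → κ < θ → QQ κ) →
  ∀ (T : Set α), KStar θ T → KStarU θ T → ∀ x₀ ∈ T,
  ∀ σ : Cardinal.{0} → Set α, Tower θ κ₀ x₀ T σ → HasSpine T

/-- QL -/
def S_QL : Prop := ∀ θ : Cardinal.{0}, ℵ₀ < θ → Order.IsSuccLimit θ →
  (∀ κ, ℵ₀ ≤ κ → κ < θ → QQ κ) → QQ θ

/-- FULL -/
def S_FULL : Prop := ∀ (α : Type) [PartialOrder α] (w : ℕ), Wd α w →
  HasSpine (Set.univ : Set α)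

end Pool.Agent.Y666.SP
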