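import Pool.Agent.Y666.SP.Stm
import Pool.Agent.Y555.SP.Abs
import Pool.Agent.Y401.SP.Wpt
import Pool.Agent.Y237.SP.Tree
import Pool.Agent.Y237.SP.Finn
import Pool.Agent.Y237.SP.Red
import Pool.Agent.Y405.SP.Glb
import Pool.Agent.Y672.SP.Ram
import Pool.Agent.Y365.SP.Star
import Pool.Agent.Y365.SP.Main
import Pool.Agent.Y383.SP.Lim
import Pool.Agent.Y799.SP.Coi
import Pool.Agent.Y401.SP.Free
import Pool.Agent.Y362.SP.Base
import Pool.Agent.Y30.SP.Zag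

/-!
# PROJECT SP: assembly of the countable case
-/

set_option autoImplicit false

namespace Pool.Agent.Y666.SP

theorem p_UP : S_UP := Pool.Agent.Y555.SP.Abs.t_UP
theorem p_ZORN : S_ZORN := Pool.Agent.Y555.SP.Abs.t_ZORN
theorem p_STEP : S_STEP := Pool.Agent.Y555.SP.Abs.t_STEP
theorem p_IN : S_IN := Pool.Agent.Y555.SP.Abs.t_IN p_UP p_ZORN p_STEP
theorem p_WPT : S_WPT := Pool.Agent.Y401.SP.t_WPT p_UP p_IN
theorem p_TREE : S_TREE := Pool.Agent.Y237.SP.tree p_UP p_WPT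
theorem p_SEL : S_SEL := t_SEL p_TREE p_ZORN
theorem p_SYS : S_SYS := Pool.Agent.Y405.SP.t_SYS Pool.Agent.Y237.SP.finn
theorem p_LIM : S_LIM := t_LIM Pool.Agent.Y405.SP.t_GLB
theorem p_BET : S_BET := t_BET p_LIM
theorem p_COI : S_COI := Pool.Agent.Y799.SP.coi t_STAR p_LIM p_BET
theorem p_RAM : S_RAM := Pool.Agent.Y672.SP.ram
theorem p_FREE : S_FREE := Pool.Agent.Y401.SP.t_FREE t_MP p_COI p_RAM
theorem p_BASE : S_BASE := Pool.Agent.Y362.SP.base t_STAR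
theorem p_RED : S_RED := Pool.Agent.Y237.SP.red p_SYS p_SEL p_BASE p_FREE
theorem p_ZAG : S_ZAG := Pool.Agent.Y30.SP.t_ZAG

/-- Every countable poset of finite width has a spine. -/
theorem p_MAIN : S_MAIN := t_MAIN p_RED p_ZAG p_RAM

end Pool.Agent.Y666.SP
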